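import Mathlib

/-!
Project FD, job QT: quantiles of a measure without atoms.
-/

set_option autoImplicit false

open MeasureTheory Filter Topology Set ProbabilityTheory

namespace Pool.Agent.Q247.FD

section

variable {ν : Measure ℝ} [IsProbabilityMeasure ν]

theorem cdf_continuous (h : ∀ x, ν {x} = 0) : Continuous (cdf ν) := by
  rw [continuous_iff_continuousAt]
  intro x
  have h1 := (cdf ν).measure_singleton x
  rw [measure_cdf, h x] at h1
  have h2 : cdf ν x - Function.leftLim (cdf ν) x ≤ 0 := ENNReal.ofReal_eq_zero.1 h1.symm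
  have h3 : Function.leftLim (cdf ν) x ≤ cdf ν x := (monotone_cdf ν).leftLim_le le_rfl
  have h4 : Function.rightLim (cdf ν) x = cdf ν x := StieltjesFunction.rightLim_eq _ _
  rw [(monotone_cdf ν).continuousAt_iff_leftLim_eq_rightLim, h4]
  linarith

theorem exists_cdf (h : ∀ x, ν {x} = 0) {r : ℝ} (h0 : 0 < r) (h1 : r < 1) :
    ∃ y, cdf ν y = r := by
  refine mem_range_of_exists_le_of_exists_ge (cdf_continuous h) ?_ ?_
  · exact ((tendsto_cdf_atBot ν).eventually (gt_mem_nhds h0)).exists.imp fun x hx => hx.le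
  · exact ((tendsto_cdf_atTop ν).eventually (lt_mem_nhds h1)).exists.imp fun x hx => hx.le

theorem le_meas (h : ∀ x, ν {x} = 0) {r : ℝ} (h0 : 0 ≤ r) (h1 : r ≤ 1) :
    ν.real {x | cdf ν x ≤ r} ≤ r := by
  rcases h1.eq_or_lt with h1 | h1
  · rw [h1]
    exact measureReal_le_one
  · refine le_of_forall_gt_imp_ge_of_dense fun s hs => ?_
    rcases lt_or_ge s 1 with hs1 | hs1
    · obtain ⟨y, hy⟩ := exists_cdf h (h0.trans_lt hs) hs1
      have h2 : {x | cdf ν x ≤ r} ⊆ Iic y := by
        intro x hx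
        by_contra hxy
        have h3 := monotone_cdf ν (le_of_not_ge hxy)
        rw [hy] at h3
        exact absurd (h3.trans hx) (not_le.2 hs)
      calc ν.real {x | cdf ν x ≤ r} ≤ ν.real (Iic y) := measureReal_mono h2
        _ = s := by rw [← cdf_eq_real, hy]
    · exact measureReal_le_one.trans hs1

theorem meas_le (h : ∀ x, ν {x} = 0) {r : ℝ} (h1 : r ≤ 1) :
    r ≤ ν.real {x | cdf ν x < r} := by
  refine le_of_forall_lt_imp_le_of_dense fun s hs => ?_
  rcases le_or_gt s 0 with hs0 | hs0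
  · exact hs0.trans measureReal_nonneg
  · obtain ⟨y, hy⟩ := exists_cdf h hs0 (hs.trans_le h1)
    have h2 : Iic y ⊆ {x | cdf ν x < r} := by
      intro x hx
      have h3 := monotone_cdf ν hx
      rw [hy] at h3
      exact h3.trans_lt hs
    calc s = ν.real (Iic y) := by rw [← cdf_eq_real, hy]
      _ ≤ _ := measureReal_mono h2

end

/-- (QT) quantiles -/
theorem qt : ∀ ν : Measure ℝ, IsProbabilityMeasure ν → (∀ x, ν {x} = 0) → ∀ s t : ℝ,
    0 ≤ s → s ≤ t → t ≤ 1 →
    (ν {x | s < (ν (Iic x)).toReal ∧ (ν (Iic x)).toReal < t}).toReal = t - s := by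
  intro ν hν h s t hs hst ht
  have h1 : {x | s < (ν (Iic x)).toReal ∧ (ν (Iic x)).toReal < t} =
      {x | cdf ν x < t} \ {x | cdf ν x ≤ s} := by
    ext x
    have h2 : cdf ν x = (ν (Iic x)).toReal := cdf_eq_real ν x
    rw [mem_diff, mem_setOf_eq, mem_setOf_eq, mem_setOf_eq, h2, not_le]
    exact and_comm
  rcases hst.eq_or_lt with hst | hst
  · have h2 : {x | s < (ν (Iic x)).toReal ∧ (ν (Iic x)).toReal < t} = ∅ := by
      rw [← hst]
      ext x
      simp only [mem_setOf_eq, mem_empty_iff_false, iff_false]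
      rintro ⟨h3, h4⟩
      exact absurd h3 (not_lt.2 h4.le)
    rw [h2, ← hst]
    simp
  · rw [h1]
    have hm : MeasurableSet {x | cdf ν x ≤ s} :=
      measurableSet_le (monotone_cdf ν).measurable measurable_const
    have hsub : {x | cdf ν x ≤ s} ⊆ {x | cdf ν x < t} := fun x hx => lt_of_le_of_lt hx hst
    change ν.real ({x | cdf ν x < t} \ {x | cdf ν x ≤ s}) = t - s
    rw [measureReal_diff hsub hm]
    have e1 : ν.real {x | cdf ν x < t} = t := by
      refine le_antisymm ?_ (meas_le h ht)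
      have h3 : {x | cdf ν x < t} ⊆ {x | cdf ν x ≤ t} := fun x hx =>
        (show cdf ν x < t from hx).le
      exact (measureReal_mono h3).trans (le_meas h (hs.trans hst.le) ht)
    have e2 : ν.real {x | cdf ν x ≤ s} = s := by
      refine le_antisymm (le_meas h hs (hst.le.trans ht)) ?_
      have h3 : {x | cdf ν x < s} ⊆ {x | cdf ν x ≤ s} := fun x hx =>
        (show cdf ν x < s from hx).le
      exact (meas_le h (hst.le.trans ht)).trans (measureReal_mono h3)
    rw [e1, e2]

end Pool.Agent.Q247.FD
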