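import Pool.Agent.Q266.FD.Stm

/-!
Project FD, job CV: the number of the eigenvalues of a box per site converges, for every phase.
-/

set_option autoImplicit false

open Filter Topology

namespace Pool.Agent.Q247.FD

open Pool.Agent.Q266.FD

theorem core {ι : Type} [Nonempty ι] (a : ι → ℕ → ℝ) (l : ℕ → ℝ)
    (h : ∀ i, ∀ K : ℕ, 1 ≤ K → ∀ e : ℝ, 0 < e → ∀ᶠ N in atTop, |a i N - l K| ≤ 1 / (K : ℝ) + e) :
    ∃ L : ℝ, ∀ i, Tendsto (a i) atTop (𝓝 L) := by
  have hl : ∀ K : ℕ, 1 ≤ K → ∀ K' : ℕ, 1 ≤ K' → |l K - l K'| ≤ 1 / (K : ℝ) + 1 / (K' : ℝ) := by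
    intro K hK K' hK'
    refine le_of_forall_pos_le_add fun e he => ?_
    obtain ⟨i⟩ := ‹Nonempty ι›
    obtain ⟨N, h1, h2⟩ := ((h i K hK (e / 2) (by positivity)).and
      (h i K' hK' (e / 2) (by positivity))).exists
    have h3 := abs_sub_le (l K) (a i N) (l K')
    rw [abs_sub_comm (l K) (a i N)] at h3
    linarith
  have hinv : ∀ e : ℝ, 0 < e → ∃ K₀ : ℕ, 1 ≤ K₀ ∧ 1 / (K₀ : ℝ) < e := by
    intro e he
    obtain ⟨n, hn⟩ := exists_nat_one_div_lt he
    exact ⟨n + 1, by omega, by push_cast; exact hn⟩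
  have hc : CauchySeq l := by
    rw [Metric.cauchySeq_iff']
    intro e he
    obtain ⟨K₀, h1, h2⟩ := hinv (e / 2) (by positivity)
    refine ⟨K₀, fun K hK => ?_⟩
    rw [Real.dist_eq]
    have h3 := hl K (h1.trans hK) K₀ h1
    have h4 : 1 / (K : ℝ) ≤ 1 / (K₀ : ℝ) := by
      have h5 : (0 : ℝ) < K₀ := by exact_mod_cast h1
      exact one_div_le_one_div_of_le h5 (by exact_mod_cast hK)
    linarith
  obtain ⟨L, hL⟩ := cauchySeq_tendsto_of_complete hc
  have hlL : ∀ K : ℕ, 1 ≤ K → |l K - L| ≤ 1 / (K : ℝ) := by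
    intro K hK
    have h1 : Tendsto (fun K' => |l K - l K'|) atTop (𝓝 |l K - L|) :=
      (tendsto_const_nhds.sub hL).abs
    have h2 : Tendsto (fun K' : ℕ => 1 / (K : ℝ) + 1 / (K' : ℝ)) atTop (𝓝 (1 / (K : ℝ) + 0)) :=
      tendsto_const_nhds.add tendsto_one_div_atTop_nhds_zero_nat
    rw [add_zero] at h2
    exact le_of_tendsto_of_tendsto h1 h2 ((eventually_ge_atTop 1).mono fun K' hK' => hl K hK K' hK')
  refine ⟨L, fun i => ?_⟩
  rw [Metric.tendsto_atTop]
  intro e he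
  obtain ⟨K, h1, h2⟩ := hinv (e / 3) (by positivity)
  obtain ⟨N₀, hN₀⟩ := eventually_atTop.1 (h i K h1 (e / 6) (by positivity))
  refine ⟨N₀, fun N hN => ?_⟩
  rw [Real.dist_eq]
  have h3 := hN₀ N hN
  have h4 := abs_sub_le (a i N) (l K) L
  have h5 := hlL K h1
  linarith

theorem cnt_le (V : ℕ → ℝ) (N : ℕ) (x : ℝ) : cnt V N x ≤ N := by
  classical
  unfold cnt
  refine (Multiset.card_le_card (Multiset.filter_le _ _)).trans ?_
  refine (Polynomial.card_roots' _).trans ?_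
  rw [Matrix.charpoly_natDegree_eq_dim, Fintype.card_fin]

theorem shift_Vn (lam w : ℝ) (p : ℕ) :
    (fun n : ℕ => Vn lam w (n + p)) = Vn lam (w + p * alpha) := by
  funext n
  unfold Vn V
  have h : (((((n + p : ℕ) : ℤ) + 1 : ℤ) : ℝ) * alpha + w) =
      ((((n : ℕ) : ℤ) + 1 : ℤ) : ℝ) * alpha + (w + p * alpha) := by
    push_cast
    ring
  rw [h]

theorem blk_real (hB : S_Blk) (lam w x : ℝ) (p q : ℕ) :
    |(cnt (Vn lam w) (p + q) x : ℝ) - cnt (Vn lam w) p x - cnt (Vn lam (w + p * alpha)) q x| ≤ 1 := by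
  obtain ⟨h1, h2⟩ := hB (Vn lam w) p q x
  rw [shift_Vn] at h1 h2
  have h1' : (cnt (Vn lam w) (p + q) x : ℝ) ≤ cnt (Vn lam w) p x +
      cnt (Vn lam (w + p * alpha)) q x + 1 := by exact_mod_cast h1
  have h2' : (cnt (Vn lam w) p x : ℝ) + cnt (Vn lam (w + p * alpha)) q x ≤
      cnt (Vn lam w) (p + q) x + 1 := by exact_mod_cast h2
  rw [abs_le]
  constructor <;> linarith

theorem near (hB : S_Blk) (lam w x : ℝ) (K N : ℕ) :
    |(K : ℝ) * cnt (Vn lam w) N x - ∑ n ∈ Finset.range N, (cnt (Vn lam (w + n * alpha)) K x : ℝ)| ≤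
      N + K * (2 * K + 1) := by
  obtain ⟨c, hc⟩ : ∃ c : ℕ → ℝ, c = fun n => (cnt (Vn lam w) n x : ℝ) := ⟨_, rfl⟩
  have hcn : ∀ n, (cnt (Vn lam w) n x : ℝ) = c n := fun n => by rw [hc]
  have h0 : ∀ n, 0 ≤ c n := fun n => by rw [hc]; positivity
  have h1 : ∀ n : ℕ, c n ≤ n := fun n => by
    rw [← hcn n]
    exact_mod_cast cnt_le _ _ _
  rw [hcn]
  have h2 : |∑ n ∈ Finset.range N, (c (n + K) - c n) -
      ∑ n ∈ Finset.range N, (cnt (Vn lam (w + n * alpha)) K x : ℝ)| ≤ N := by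
    rw [← Finset.sum_sub_distrib]
    refine (Finset.abs_sum_le_sum_abs _ _).trans ?_
    have h3 : ∀ n ∈ Finset.range N, |c (n + K) - c n -
        (cnt (Vn lam (w + n * alpha)) K x : ℝ)| ≤ 1 := by
      intro n _
      have := blk_real hB lam w x n K
      rwa [hcn, hcn] at this
    refine (Finset.sum_le_sum h3).trans ?_
    simp
  have h3 : ∀ M : ℕ, ∑ n ∈ Finset.range M, (c (n + K) - c n) =
      ∑ j ∈ Finset.range K, c (M + j) - ∑ j ∈ Finset.range K, c j := by
    intro M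
    induction M with
    | zero => simp
    | succ M ih =>
      rw [Finset.sum_range_succ, ih]
      have h4 := Finset.sum_range_succ (fun j => c (M + j)) K
      have h5 := Finset.sum_range_succ' (fun j => c (M + j)) K
      have h6 : ∀ j, c (M + 1 + j) = c (M + (j + 1)) := fun j => by rw [add_assoc, add_comm 1 j]
      simp only [h6]
      rw [add_zero] at h5
      linarith
  rw [h3 N] at h2
  have h4 : |∑ j ∈ Finset.range K, c (N + j) - K * c N| ≤ K * K := by
    have h5 : (K : ℝ) * c N = ∑ _j ∈ Finset.range K, c N := by simp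
    rw [h5, ← Finset.sum_sub_distrib]
    refine (Finset.abs_sum_le_sum_abs _ _).trans ?_
    have h6 : ∀ j ∈ Finset.range K, |c (N + j) - c N| ≤ K := by
      intro j hj
      have h7 := blk_real hB lam w x N j
      rw [hcn, hcn] at h7
      have h8 : (cnt (Vn lam (w + N * alpha)) j x : ℝ) ≤ j := by exact_mod_cast cnt_le _ _ _
      have h9 : (0 : ℝ) ≤ (cnt (Vn lam (w + N * alpha)) j x : ℝ) := by positivity
      have h10 : (j : ℝ) + 1 ≤ K := by exact_mod_cast Finset.mem_range.1 hj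
      rw [abs_le] at h7 ⊢
      constructor <;> linarith [h7.1, h7.2]
    refine (Finset.sum_le_sum h6).trans ?_
    simp
  have h5 : |∑ j ∈ Finset.range K, c j| ≤ K * K := by
    refine (Finset.abs_sum_le_sum_abs _ _).trans ?_
    have h6 : ∀ j ∈ Finset.range K, |c j| ≤ K := by
      intro j hj
      rw [abs_of_nonneg (h0 j)]
      exact (h1 j).trans (by exact_mod_cast (Finset.mem_range.1 hj).le)
    refine (Finset.sum_le_sum h6).trans ?_
    simp
  have hK : (0 : ℝ) ≤ K := by positivity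
  have h7 : (K : ℝ) * (2 * K + 1) = K * K + K * K + K := by ring
  rw [h7]
  rw [abs_le] at h2 h4 h5 ⊢
  constructor <;> linarith [h2.1, h2.2, h4.1, h4.2, h5.1, h5.2]

/-- (CV) the number of eigenvalues of a box per site converges, for every phase -/
theorem cv (hE : S_Eq) (hB : S_Blk) : S_Cv := by
  intro lam x
  choose L hL using fun K : ℕ => hE lam K x
  refine core (fun w N => (cnt (Vn lam w) N x : ℝ) / N) (fun K => L K / K) ?_
  intro w K hK e he
  have hK0 : (0 : ℝ) < K := by exact_mod_cast hK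
  have h1 := hL K w
  have h2 : Tendsto (fun N : ℕ => ((∑ n ∈ Finset.range N,
      (cnt (Vn lam (w + n * alpha)) K x : ℝ)) / N) / K) atTop (𝓝 (L K / K)) := h1.div_const _
  have h3 := (Metric.tendsto_nhds.1 h2) (e / 2) (by positivity)
  have h4 : Tendsto (fun N : ℕ => (2 * (K : ℝ) + 1) / (N : ℝ)) atTop (𝓝 0) :=
    tendsto_const_div_atTop_nhds_zero_nat _
  have h5 := h4.eventually (gt_mem_nhds (show (0 : ℝ) < e / 2 by positivity))
  filter_upwards [h3, h5, eventually_ge_atTop 1] with N h6 h7 h8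
  have hN : (0 : ℝ) < N := by exact_mod_cast h8
  rw [Real.dist_eq] at h6
  have h9 := near hB lam w x K N
  obtain ⟨S, hS⟩ : ∃ S, S = ∑ n ∈ Finset.range N, (cnt (Vn lam (w + n * alpha)) K x : ℝ) := ⟨_, rfl⟩
  rw [← hS] at h9 h6
  have h10 : |(cnt (Vn lam w) N x : ℝ) / N - S / N / K| ≤ 1 / K + (2 * K + 1) / N := by
    have h11 : (cnt (Vn lam w) N x : ℝ) / N - S / N / K = (K * cnt (Vn lam w) N x - S) / (K * N) := by
      field_simp
    rw [h11, abs_div, abs_of_pos (show (0 : ℝ) < K * N by positivity)]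
    rw [div_le_iff₀ (by positivity)]
    refine h9.trans (le_of_eq ?_)
    field_simp
  have h11 := abs_sub_le ((cnt (Vn lam w) N x : ℝ) / N) (S / N / K) (L K / K)
  change |(cnt (Vn lam w) N x : ℝ) / N - L K / K| ≤ 1 / K + e
  linarith

end Pool.Agent.Q247.FD
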