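import Pool.Agent.Q266.FD.Stm
import Pool.Agent.Q247.FD.Cv

/-!
Project FD, job CN: the number of the zeros up to bounded error.
-/

set_option autoImplicit false

open Filter Topology

namespace Pool.Agent.Q247.FD

open Pool.Agent.Q266.FD Pool.Agent.W745.Fib Pool.Agent.Y662.FIB
open Pool.Agent.H695R3.ST (D)

theorem cnt_congr {V W : ℕ → ℝ} {N : ℕ} (h : ∀ n, n < N → V n = W n) (x : ℝ) :
    cnt V N x = cnt W N x := by
  have h1 : J V N = J W N := by
    funext i j
    unfold J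
    rw [h i i.2]
  unfold cnt
  rw [h1]

/-- the zero set -/
theorem zero_set {lam : ℝ} (h0 : 0 < lam) {k : ℕ} (hk : 1 ≤ k) :
    ∃ Z : Finset ℝ, Z.card = Nat.fib k ∧ ∀ E, E ∈ Z ↔ tr lam k E = 0 := by
  have h1 := (hZ lam h0.ne' k hk).2.1 0 (by
    rw [abs_zero]
    exact zero_lt_one.trans (one_lt h0))
  refine ⟨h1.1.toFinset, ?_, fun E => ?_⟩
  · rw [← Set.ncard_eq_toFinset_card _ h1.1]
    exact h1.2
  · rw [Set.Finite.mem_toFinset]
    rfl

theorem zc_eq {lam : ℝ} {k : ℕ} {Z : Finset ℝ} (hZ : ∀ E, E ∈ Z ↔ tr lam k E = 0) (x : ℝ) :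
    zc lam k x = (Z.filter (fun E => E ≤ x)).card := by
  unfold zc
  rw [← Set.ncard_coe_finset]
  congr 1
  ext E
  simp [hZ]

/-- (CN) the number of the zeros up to bounded error -/
theorem cn (hB : S_Blk) (hT : S_Tw) (hW : S_Wd) (hH : S_Sh) : S_Cn := by
  intro lam h0
  obtain ⟨C, hC⟩ := hH 3
  refine ⟨|C| + 5, ?_⟩
  intro x L hL k hk
  obtain ⟨hW1, hW2⟩ := hW lam
  obtain ⟨c, hc⟩ : ∃ c : ℕ → ℝ, c = fun k => (cnt (Vn lam 0) (Nat.fib k) x : ℝ) := ⟨_, rfl⟩
  have hck : ∀ k, (cnt (Vn lam 0) (Nat.fib k) x : ℝ) = c k := fun k => by rw [hc]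
  have hc0 : ∀ k, 0 ≤ c k := fun k => by
    rw [← hck]
    positivity
  have hc1 : ∀ k, c k ≤ Nat.fib k := fun k => by
    rw [← hck]
    exact_mod_cast cnt_le _ _ _
  have hfib : ∀ k, 1 ≤ k → (0 : ℝ) < Nat.fib k := fun k hk => by
    exact_mod_cast Nat.fib_pos.2 hk
  have hL' : Tendsto (fun k => c k / (Nat.fib k : ℝ)) atTop (𝓝 L) := by
    simpa only [hck] using hL
  have hL0 : 0 ≤ L := ge_of_tendsto' hL' fun k => div_nonneg (hc0 k) (by positivity)
  have hL1 : L ≤ 1 := le_of_tendsto' hL' fun k => div_le_one_of_le₀ (hc1 k) (by positivity)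
  -- the recursion
  have hrec : ∀ k, 2 ≤ k → |c (k + 2) - c (k + 1) - c k| ≤ 1 := by
    intro k hk
    obtain ⟨h1, h2⟩ := hB (Vn lam 0) (Nat.fib (k + 1)) (Nat.fib k) x
    have h3 : cnt (fun n => Vn lam 0 (n + Nat.fib (k + 1))) (Nat.fib k) x =
        cnt (Vn lam 0) (Nat.fib k) x := cnt_congr (fun n hn => hW1 k hk n hn) x
    have h4 : Nat.fib (k + 1) + Nat.fib k = Nat.fib (k + 2) := by
      rw [Nat.fib_add_two, add_comm]
    rw [h3, h4] at h1 h2
    have h1' : c (k + 2) ≤ c (k + 1) + c k + 1 := by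
      rw [← hck, ← hck, ← hck]
      exact_mod_cast h1
    have h2' : c (k + 1) + c k ≤ c (k + 2) + 1 := by
      rw [← hck, ← hck, ← hck]
      exact_mod_cast h2
    rw [abs_le]
    constructor <;> linarith
  have hd := hC (fun k => c (k + 2) - L * Nat.fib (k + 2)) (by
      have h1 := hc0 2
      have h2 := hc1 2
      have h3 : Nat.fib 2 = 1 := rfl
      change |c 2 - L * (Nat.fib 2 : ℝ)| ≤ 3
      rw [h3] at h2 ⊢
      push_cast at h2 ⊢
      rw [abs_le]
      constructor <;> linarith) (by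
      intro k
      have h1 := hrec (k + 2) (by omega)
      have h2 : Nat.fib (k + 2 + 2) = Nat.fib (k + 2) + Nat.fib (k + 2 + 1) := Nat.fib_add_two
      have h3 : (c (k + 2 + 2) - L * (Nat.fib (k + 2 + 2) : ℝ)) -
          (c (k + 1 + 2) - L * (Nat.fib (k + 1 + 2) : ℝ)) - (c (k + 2) - L * (Nat.fib (k + 2) : ℝ)) =
          c (k + 2 + 2) - c (k + 2 + 1) - c (k + 2) := by
        rw [h2, show k + 1 + 2 = k + 2 + 1 from rfl]
        push_cast
        ring
      change |(c (k + 2 + 2) - L * (Nat.fib (k + 2 + 2) : ℝ)) -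
          (c (k + 1 + 2) - L * (Nat.fib (k + 1 + 2) : ℝ)) -
          (c (k + 2) - L * (Nat.fib (k + 2) : ℝ))| ≤ 3
      rw [h3]
      linarith) (by
      have h1 : Tendsto (fun k => c (k + 2) / (Nat.fib (k + 2) : ℝ) - L) atTop (𝓝 0) := by
        have h2 := (hL'.comp (tendsto_add_atTop_nat 2)).sub_const L
        rw [sub_self] at h2
        exact h2
      rw [tendsto_zero_iff_abs_tendsto_zero] at h1 ⊢
      have h2 := h1.const_mul 2
      rw [mul_zero] at h2
      refine squeeze_zero (fun k => abs_nonneg _) (fun k => ?_) h2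
      change |(c (k + 2) - L * (Nat.fib (k + 2) : ℝ)) / (Nat.fib (k + 1) : ℝ)| ≤
        2 * |c (k + 2) / (Nat.fib (k + 2) : ℝ) - L|
      have h3 := hfib (k + 1) (by omega)
      have h4 := hfib (k + 2) (by omega)
      have h5 : (Nat.fib (k + 2) : ℝ) ≤ 2 * Nat.fib (k + 1) := by
        have h6 : Nat.fib (k + 2) = Nat.fib k + Nat.fib (k + 1) := Nat.fib_add_two
        have h7 : Nat.fib k ≤ Nat.fib (k + 1) := Nat.fib_mono (Nat.le_succ k)
        exact_mod_cast (by omega : Nat.fib (k + 2) ≤ 2 * Nat.fib (k + 1))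
      have h6 : (c (k + 2) - L * (Nat.fib (k + 2) : ℝ)) / (Nat.fib (k + 1) : ℝ) =
          (c (k + 2) / (Nat.fib (k + 2) : ℝ) - L) * ((Nat.fib (k + 2) : ℝ) / Nat.fib (k + 1)) := by
        field_simp
      rw [h6, abs_mul, abs_of_pos (show (0 : ℝ) < (Nat.fib (k + 2) : ℝ) / Nat.fib (k + 1) by
        positivity), mul_comm]
      refine mul_le_mul_of_nonneg_right ?_ (abs_nonneg _)
      rw [div_le_iff₀ h3]
      exact h5)
  obtain ⟨Z, hZc, hZm⟩ := zero_set h0 hk
  have hzc := zc_eq hZm x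
  rcases lt_or_ge k 4 with h4 | h4
  · have h5 : zc lam k x ≤ Nat.fib k := by
      rw [hzc, ← hZc]
      exact Finset.card_filter_le _ _
    have h6 : Nat.fib k ≤ 2 := by
      have : Nat.fib k ≤ Nat.fib 3 := Nat.fib_mono (by omega)
      exact this
    have h7 : (zc lam k x : ℝ) ≤ 2 := by exact_mod_cast h5.trans h6
    have h8 : (Nat.fib k : ℝ) ≤ 2 := by exact_mod_cast h6
    have h9 : (0 : ℝ) ≤ (zc lam k x : ℝ) := by positivity
    have h10 : 0 ≤ L * (Nat.fib k : ℝ) := by positivity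
    have h11 : L * (Nat.fib k : ℝ) ≤ 2 := by nlinarith
    have h12 := abs_nonneg C
    rw [abs_le]
    constructor <;> linarith
  · have h5 : 3 ≤ Nat.fib k := by
      have : Nat.fib 4 ≤ Nat.fib k := Nat.fib_mono h4
      exact this
    obtain ⟨h6, h7⟩ := hT (V lam 0) (Nat.fib k) h5 Z hZc (fun E hE => by
      rw [hW2 k (by omega) E, (hZm E).1 hE, mul_zero]) x
    rw [← hzc] at h6 h7
    have h8 : (zc lam k x : ℝ) ≤ c k + 1 := by
      rw [← hck]
      exact_mod_cast h6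
    have h9 : c k ≤ zc lam k x + 1 := by
      rw [← hck]
      exact_mod_cast h7
    have h10 := hd (k - 2)
    have h11 : k - 2 + 2 = k := by omega
    simp only [h11] at h10
    have h12 := h10.trans (le_abs_self C)
    rw [abs_le] at h12 ⊢
    constructor <;> linarith [h12.1, h12.2]

end Pool.Agent.Q247.FD
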