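import Mathlib

/-!
Project FD, job DJ: a finite family of intervals can be replaced by a disjoint one.
-/

set_option autoImplicit false

open Set

namespace Pool.Agent.Q247.FD

theorem rpow_hull {s : ℝ} (h0 : 0 < s) (h1 : s ≤ 1) {I K : ℝ × ℝ} (hI : I.1 < I.2) (hK : K.1 < K.2)
    (h2 : K.1 < I.2) (h3 : I.1 < K.2) :
    (max I.2 K.2 - min I.1 K.1) ^ s ≤ (I.2 - I.1) ^ s + (K.2 - K.1) ^ s := by
  have h4 : max I.2 K.2 - min I.1 K.1 ≤ (I.2 - I.1) + (K.2 - K.1) := by
    rcases le_total I.2 K.2 with h | h <;> rcases le_total I.1 K.1 with h' | h' <;>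
      simp only [max_eq_right h, max_eq_left h, min_eq_left h', min_eq_right h'] <;> linarith
  have h5 : 0 ≤ max I.2 K.2 - min I.1 K.1 := by
    have h6 := le_max_left I.2 K.2
    have h7 := min_le_left I.1 K.1
    linarith
  refine (Real.rpow_le_rpow h5 h4 h0.le).trans ?_
  exact Real.rpow_add_le_add_rpow (by linarith) (by linarith) h0.le h1

/-- (DJ) a finite family of intervals can be replaced by a disjoint one -/
theorem dj : ∀ s : ℝ, 0 < s → s ≤ 1 → ∀ F : Finset (ℝ × ℝ), (∀ I ∈ F, I.1 < I.2) →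
    ∃ G : Finset (ℝ × ℝ), (∀ I ∈ G, I.1 < I.2) ∧
      (∀ I ∈ G, ∀ K ∈ G, I ≠ K → I.2 ≤ K.1 ∨ K.2 ≤ I.1) ∧
      (⋃ I ∈ F, Ioo I.1 I.2) ⊆ (⋃ I ∈ G, Ioo I.1 I.2) ∧
      ∑ I ∈ G, (I.2 - I.1) ^ s ≤ ∑ I ∈ F, (I.2 - I.1) ^ s := by
  intro s h0 h1 F
  induction hn : F.card using Nat.strong_induction_on generalizing F with
  | _ n ih =>
    intro hF
    by_cases h : ∀ I ∈ F, ∀ K ∈ F, I ≠ K → I.2 ≤ K.1 ∨ K.2 ≤ I.1
    · exact ⟨F, hF, h, subset_rfl, le_rfl⟩
    push Not at h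
    obtain ⟨I, hI, K, hK, hIK, h2, h3⟩ := h
    have hK' : K ∈ F.erase I := Finset.mem_erase.2 ⟨hIK.symm, hK⟩
    have hc1 := Finset.card_erase_add_one hI
    have hc2 := Finset.card_erase_add_one hK'
    have hsum1 := Finset.add_sum_erase F (fun I : ℝ × ℝ => (I.2 - I.1) ^ s) hI
    have hsum2 := Finset.add_sum_erase (F.erase I) (fun I : ℝ × ℝ => (I.2 - I.1) ^ s) hK'
    obtain ⟨E, hE⟩ : ∃ E, E = (F.erase I).erase K := ⟨_, rfl⟩
    rw [← hE] at hc2 hsum2
    have hEF : ∀ L ∈ E, L ∈ F := by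
      intro L hL
      rw [hE] at hL
      exact Finset.mem_of_mem_erase (Finset.mem_of_mem_erase hL)
    have hFE : ∀ L ∈ F, L = I ∨ L = K ∨ L ∈ E := by
      intro L hL
      by_cases h4 : L = I
      · exact Or.inl h4
      by_cases h5 : L = K
      · exact Or.inr (Or.inl h5)
      · rw [hE]
        exact Or.inr (Or.inr (Finset.mem_erase.2 ⟨h5, Finset.mem_erase.2 ⟨h4, hL⟩⟩))
    obtain ⟨H, hH⟩ : ∃ H : ℝ × ℝ, H = (min I.1 K.1, max I.2 K.2) := ⟨_, rfl⟩
    have hH1 : H.1 = min I.1 K.1 := by rw [hH]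
    have hH2 : H.2 = max I.2 K.2 := by rw [hH]
    have hcard : (insert H E).card < n := by
      have := Finset.card_insert_le H E
      omega
    obtain ⟨G, g1, g2, g3, g4⟩ := ih _ hcard (insert H E) rfl (by
      intro L hL
      rcases Finset.mem_insert.1 hL with hL | hL
      · rw [hL, hH1, hH2]
        exact (min_le_left _ _).trans_lt ((hF I hI).trans_le (le_max_left _ _))
      · exact hF L (hEF L hL))
    refine ⟨G, g1, g2, Subset.trans ?_ g3, g4.trans ?_⟩
    · intro x hx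
      simp only [mem_iUnion] at hx ⊢
      obtain ⟨L, hL, hx⟩ := hx
      rcases hFE L hL with h4 | h4 | h4
      · refine ⟨H, Finset.mem_insert_self _ _, ?_⟩
        rw [h4] at hx
        rw [hH1, hH2]
        exact ⟨(min_le_left _ _).trans_lt hx.1, hx.2.trans_le (le_max_left _ _)⟩
      · refine ⟨H, Finset.mem_insert_self _ _, ?_⟩
        rw [h4] at hx
        rw [hH1, hH2]
        exact ⟨(min_le_right _ _).trans_lt hx.1, hx.2.trans_le (le_max_right _ _)⟩
      · exact ⟨L, Finset.mem_insert_of_mem h4, hx⟩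
    · have h5 : ∑ L ∈ insert H E, (L.2 - L.1) ^ s ≤ (H.2 - H.1) ^ s + ∑ L ∈ E, (L.2 - L.1) ^ s := by
        by_cases h6 : H ∈ E
        · rw [Finset.insert_eq_of_mem h6]
          have h7 : 0 ≤ (H.2 - H.1) ^ s := Real.rpow_nonneg (by
            have := hF H (hEF H h6)
            linarith) s
          linarith
        · rw [Finset.sum_insert h6]
      have h8 := rpow_hull h0 h1 (hF I hI) (hF K hK) h2 h3
      rw [← hH1, ← hH2] at h8
      linarith

end Pool.Agent.Q247.FD
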