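import Mathlib

/-!
Project FD, job SH: almost Fibonacci sequences.
-/

set_option autoImplicit false

open Filter Topology Real

namespace Pool.Agent.Q247.FD

theorem fib_le_pow {g : ℝ} (hg : 1 < g) (hg2 : g ^ 2 = g + 1) (n : ℕ) :
    (Nat.fib (n + 1) : ℝ) ≤ g ^ n := by
  have key : (Nat.fib (n + 1) : ℝ) ≤ g ^ n ∧ (Nat.fib (n + 2) : ℝ) ≤ g ^ (n + 1) := by
    induction n with
    | zero => norm_num [hg.le]
    | succ n ih =>
      refine ⟨ih.2, ?_⟩
      have h1 : Nat.fib (n + 1 + 2) = Nat.fib (n + 1) + Nat.fib (n + 2) := Nat.fib_add_two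
      rw [h1]
      push_cast
      have h2 : g ^ (n + 1 + 1) = g ^ n + g ^ (n + 1) := by
        rw [pow_succ, pow_succ, mul_assoc, ← sq, hg2]
        ring
      rw [h2]
      exact add_le_add ih.1 ih.2
  exact key.1

/-- a sequence which almost satisfies `u (k + 1) = g u k` and grows more slowly is bounded -/
theorem bdd_of_small {g : ℝ} (hg : 1 < g) {B : ℝ} (hB : 0 ≤ B) {u : ℕ → ℝ}
    (h1 : ∀ k, |u (k + 1) - g * u k| ≤ B)
    (h2 : Tendsto (fun k => u k / g ^ k) atTop (𝓝 0)) (k : ℕ) :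
    |u k| ≤ B / (g - 1) := by
  have hg0 : 0 < g - 1 := by linarith
  have hgp : 0 < g := by linarith
  obtain ⟨M, hM⟩ : ∃ M, M = B / (g - 1) := ⟨_, rfl⟩
  have hMB : M * (g - 1) = B := by
    rw [hM]
    exact div_mul_cancel₀ B hg0.ne'
  have hM0 : 0 ≤ M := by
    rw [hM]
    positivity
  rw [← hM]
  by_contra hk
  push Not at hk
  have h3 : ∀ j, (|u k| - M) * g ^ j + M ≤ |u (k + j)| := by
    intro j
    induction j with
    | zero => simp
    | succ j ih =>
      have h4 := h1 (k + j)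
      have h5 : g * |u (k + j)| - B ≤ |u (k + j + 1)| := by
        have h6 : |g * u (k + j)| = g * |u (k + j)| := by
          rw [abs_mul, abs_of_pos hgp]
        have h7 := abs_sub_abs_le_abs_sub (g * u (k + j)) (u (k + j + 1))
        rw [h6, abs_sub_comm] at h7
        linarith
      have h7 := mul_le_mul_of_nonneg_left ih hgp.le
      have h8 : g * ((|u k| - M) * g ^ j + M) = (|u k| - M) * g ^ (j + 1) + M * (g - 1) + M := by
        rw [pow_succ]
        ring
      rw [h8, hMB] at h7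
      have h9 : |u (k + (j + 1))| = |u (k + j + 1)| := rfl
      rw [h9]
      linarith
  have h4 : Tendsto (fun j => |u (k + j)| / g ^ (k + j)) atTop (𝓝 0) := by
    have h5 : Tendsto (fun j => u (k + j) / g ^ (k + j)) atTop (𝓝 0) :=
      h2.comp (tendsto_add_atTop_nat k |>.congr fun j => by rw [add_comm])
    have h6 := h5.abs
    rw [abs_zero] at h6
    refine h6.congr fun j => ?_
    rw [abs_div, abs_of_pos (show (0:ℝ) < g ^ (k + j) by positivity)]
  have h6 : (0:ℝ) < g ^ k := by positivity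
  have h5 : ∀ j, (|u k| - M) / g ^ k ≤ |u (k + j)| / g ^ (k + j) := by
    intro j
    have h7 : (0:ℝ) < g ^ j := by positivity
    rw [pow_add, div_le_div_iff₀ h6 (by positivity)]
    have h8 := h3 j
    have h10 : (|u k| - M) * g ^ j ≤ |u (k + j)| := by linarith
    calc (|u k| - M) * (g ^ k * g ^ j) = (|u k| - M) * g ^ j * g ^ k := by ring
      _ ≤ |u (k + j)| * g ^ k := mul_le_mul_of_nonneg_right h10 h6.le
  have h8 := ge_of_tendsto' h4 h5
  have h9 : 0 < (|u k| - M) / g ^ k := div_pos (by linarith) h6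
  linarith

/-- (SH) almost Fibonacci sequences -/
theorem sh : ∀ B : ℝ, ∃ C : ℝ, ∀ d : ℕ → ℝ, |d 0| ≤ B →
    (∀ k, |d (k + 2) - d (k + 1) - d k| ≤ B) →
    Tendsto (fun k => d k / (Nat.fib (k + 1) : ℝ)) atTop (𝓝 0) → ∀ k, |d k| ≤ C := by
  intro B
  obtain ⟨g, hg, hg2, hgl⟩ : ∃ g : ℝ, 1 < g ∧ g ^ 2 = g + 1 ∧ g < 2 :=
    ⟨goldenRatio, one_lt_goldenRatio, goldenRatio_sq, goldenRatio_lt_two⟩
  have hg0 : 0 < g - 1 := by linarith
  have hgp : 0 < g := by linarith
  refine ⟨B + B / (g - 1) * g / (g - 1), ?_⟩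
  intro d hd0 hd h
  have hB : 0 ≤ B := (abs_nonneg _).trans hd0
  have hd' : Tendsto (fun k => d k / g ^ k) atTop (𝓝 0) := by
    rw [tendsto_zero_iff_abs_tendsto_zero] at h ⊢
    refine squeeze_zero (fun k => abs_nonneg _) (fun k => ?_) h
    change |d k / g ^ k| ≤ |d k / (Nat.fib (k + 1) : ℝ)|
    have h1 : (0:ℝ) < (Nat.fib (k + 1) : ℝ) := by
      have := Nat.fib_pos.2 (Nat.succ_pos k)
      exact_mod_cast this
    rw [abs_div, abs_div, abs_of_pos h1, abs_of_pos (show (0:ℝ) < g ^ k by positivity)]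
    exact div_le_div_of_nonneg_left (abs_nonneg _) h1 (fib_le_pow hg hg2 k)
  have hu := bdd_of_small hg hB (u := fun k => d (k + 1) + (g - 1) * d k) (fun k => by
      have h1 := hd k
      have h2 : d (k + 1 + 1) + (g - 1) * d (k + 1) -
          g * (d (k + 1) + (g - 1) * d k) = d (k + 2) - d (k + 1) - d k := by
        linear_combination (-d k) * hg2
      rw [h2]
      exact h1) (by
      have h1 : Tendsto (fun k => d (k + 1) / g ^ (k + 1)) atTop (𝓝 0) :=
        hd'.comp (tendsto_add_atTop_nat 1)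
      have h2 := (h1.const_mul g).add (hd'.const_mul (g - 1))
      rw [mul_zero, mul_zero, add_zero] at h2
      refine h2.congr fun k => ?_
      have h3 : g ^ k ≠ 0 := by positivity
      rw [pow_succ]
      field_simp)
  obtain ⟨M, hM⟩ : ∃ M, M = B / (g - 1) := ⟨_, rfl⟩
  have hM0 : 0 ≤ M := by
    rw [hM]
    positivity
  rw [← hM] at hu ⊢
  obtain ⟨L, hL⟩ : ∃ L, L = M * g / (g - 1) := ⟨_, rfl⟩
  have hL1 : L * (g - 1) = M * g := by
    rw [hL]
    exact div_mul_cancel₀ _ hg0.ne'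
  have hL0 : 0 ≤ L := by
    rw [hL]
    positivity
  have hL2 : L = M * g + M := by
    have h1 : (L - (M * g + M)) * (g - 1) = 0 := by
      rw [sub_mul, hL1]
      linear_combination (-M) * hg2
    rcases mul_eq_zero.1 h1 with h | h
    · linarith
    · exact absurd h hg0.ne'
  rw [← hL]
  intro k
  induction k with
  | zero => linarith
  | succ k ih =>
    have h5 : |d (k + 1) + (g - 1) * d k| ≤ M := hu k
    have h6 : |d (k + 1)| ≤ M + (g - 1) * |d k| := by
      have h8 := abs_sub_abs_le_abs_sub (d (k + 1)) (-((g - 1) * d k))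
      rw [abs_neg, abs_mul, abs_of_pos hg0, sub_neg_eq_add] at h8
      linarith
    have h7 := mul_le_mul_of_nonneg_left ih hg0.le
    have h8 : (g - 1) * B ≤ B := by nlinarith
    have h9 : (g - 1) * (B + L) = (g - 1) * B + M * g := by
      rw [mul_add, mul_comm (g - 1) L, hL1]
    rw [h9] at h7
    linarith

end Pool.Agent.Q247.FD
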