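import Pool.Agent.Q266.FD.Stm

/-!
Project FD, job U1: disjoint covers from the dimension.
-/

set_option autoImplicit false

open MeasureTheory Filter Topology Set
open scoped ENNReal NNReal

namespace Pool.Agent.Q247.FD

open Pool.Agent.Q266.FD
open Pool.Agent.W811.Dos (upDim)

/-- (U1) disjoint covers from the dimension -/
theorem u1 (hD : S_Dj) : S_U1 := by
  intro μ hμ t s ht ht0 hts hs1 ε hε
  obtain ⟨s', h1, h2⟩ := exists_rat_btwn hts
  obtain ⟨e', h3, h4⟩ := exists_rat_btwn (lt_min hε one_pos)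
  have he' : 0 < e' := by exact_mod_cast h3
  have hs' : (0 : ℝ) < s' := lt_of_le_of_lt ht0 h1
  have hud := (Pool.Agent.W382.Dos.Ud.ud μ hμ (Real.toNNReal t)).1 ht s' (by
    rw [Real.coe_toNNReal _ ht0]
    exact h1) e' he'
  obtain ⟨F, hF1, hF2, hF3⟩ := hud
  have hlen : ∀ I ∈ F, 0 < ((I.2 - I.1 : ℚ) : ℝ) := by
    intro I hI
    exact_mod_cast sub_pos.2 (hF1 I hI)
  obtain ⟨f, hf⟩ : ∃ f : ℚ × ℚ → ℝ × ℝ, f = fun I => ((I.1 : ℝ), (I.2 : ℝ)) := ⟨_, rfl⟩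
  have hf1 : ∀ I, (f I).1 = (I.1 : ℝ) := fun I => by rw [hf]
  have hf2 : ∀ I, (f I).2 = (I.2 : ℝ) := fun I => by rw [hf]
  have hinj : Function.Injective f := by
    intro I K h
    have e1 := congrArg Prod.fst h
    have e2 := congrArg Prod.snd h
    rw [hf1, hf1] at e1
    rw [hf2, hf2] at e2
    exact Prod.ext (by exact_mod_cast e1) (by exact_mod_cast e2)
  obtain ⟨G, g1, g2, g3, g4⟩ := hD s (hs'.trans h2) hs1 (F.map ⟨f, hinj⟩) (by
    intro I hI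
    obtain ⟨K, hK, rfl⟩ := Finset.mem_map.1 hI
    change (f K).1 < (f K).2
    rw [hf1, hf2]
    exact_mod_cast hF1 K hK)
  refine ⟨G, g1, g2, ?_, ?_⟩
  · refine g4.trans ?_
    rw [Finset.sum_map]
    have h5 : ∀ I ∈ F, ((f I).2 - (f I).1) ^ s ≤ ((I.2 - I.1 : ℚ) : ℝ) ^ (s' : ℝ) := by
      intro I hI
      rw [hf1, hf2]
      have h6 := hlen I hI
      have h7 : ((I.2 - I.1 : ℚ) : ℝ) ^ (s' : ℝ) ≤ 1 := by
        have h8 := Finset.single_le_sum (f := fun I : ℚ × ℚ => ((I.2 - I.1 : ℚ) : ℝ) ^ (s' : ℝ))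
          (fun J hJ => Real.rpow_nonneg (hlen J hJ).le _) hI
        have h9 := lt_min_iff.1 h4
        exact (h8.trans hF2.le).trans h9.2.le
      have h8 : ((I.2 - I.1 : ℚ) : ℝ) ≤ 1 := by
        by_contra hc
        exact absurd h7 (not_le.2 (Real.one_lt_rpow (not_le.1 hc) hs'))
      have h9 := Real.rpow_le_rpow_of_exponent_ge h6 h8 h2.le
      push_cast at h9 ⊢
      exact h9
    have h6 : ∑ I ∈ F, ((f I).2 - (f I).1) ^ s ≤ e' := (Finset.sum_le_sum h5).trans hF2.le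
    exact h6.trans (lt_min_iff.1 h4).1.le
  · have h5 : (⋃ I ∈ F, Ioo (I.1 : ℝ) (I.2 : ℝ)) ⊆ ⋃ I ∈ G, Ioo I.1 I.2 := by
      refine Subset.trans ?_ g3
      intro x hx
      simp only [mem_iUnion] at hx ⊢
      obtain ⟨I, hI, hx⟩ := hx
      refine ⟨f I, Finset.mem_map.2 ⟨I, hI, rfl⟩, ?_⟩
      rw [hf1, hf2]
      exact hx
    have h6 := hF3.le.trans (measure_mono h5)
    have h7 : 1 - (e' : ℝ) ≤ (μ (⋃ I ∈ G, Ioo I.1 I.2)).toReal := by
      have h8 := ENNReal.toReal_mono (measure_ne_top μ _) h6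
      rw [ENNReal.toReal_ofReal (by linarith [(lt_min_iff.1 h4).2])] at h8
      exact h8
    linarith [(lt_min_iff.1 h4).1]

end Pool.Agent.Q247.FD
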